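import Pool.Agent.H21.L.R_pool_sql_team_seeded_2aa45f1a.Q5.BP.Sq

/-!
# The exact mean square, in the form used for the translations
-/

set_option autoImplicit false

open MeasureTheory Filter Topology Set Complex
open scoped ENNReal
open Pool.Agent.TH270.MS (Mc DvR)
open Pool.Agent.Q5.MS (Sq)

namespace Pool.Agent.Q5.BP

/-- `(log Y)⁻¹ ∫_e^Y (log y · f(y))² dy/y` -/
noncomputable def MSq (f : ℝ → ℝ) (Y : ℝ) : ℝ :=
  (∫ y in Real.exp 1..Y, (Real.log y * f y) ^ 2 / y) / Real.log Y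

/-- `(log Y)⁻¹ ∫_e^Y (log y · f(y)) y^(-it) dy/y` -/
noncomputable def FB (f : ℝ → ℝ) (t Y : ℝ) : ℂ :=
  (∫ y in Real.exp 1..Y, ((Real.log y * f y : ℝ) : ℂ) * (y : ℂ) ^ (-(t * I)) / (y : ℂ)) /
    (Real.log Y : ℂ)

theorem msq_congr {f g : ℝ → ℝ} (h : ∀ y : ℝ, Real.exp 1 ≤ y → f y = g y) {Y : ℝ}
    (hY : Real.exp 1 ≤ Y) : ∫ y in Real.exp 1..Y, (Real.log y * f y) ^ 2 / y =
      ∫ y in Real.exp 1..Y, (Real.log y * g y) ^ 2 / y := by
  refine intervalIntegral.integral_congr fun y hy => ?_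
  rw [uIcc_of_le hY] at hy
  rw [h y hy.1]

theorem fb_congr {f g : ℝ → ℝ} (h : ∀ y : ℝ, Real.exp 1 ≤ y → f y = g y) (t : ℝ) {Y : ℝ}
    (hY : Real.exp 1 ≤ Y) : FB f t Y = FB g t Y := by
  unfold FB
  congr 1
  refine intervalIntegral.integral_congr fun y hy => ?_
  rw [uIcc_of_le hY] at hy
  rw [h y hy.1]

variable {X : Type} {d : ℕ} {N : X → ℕ} {α : X → Fin d → ℂ} {Ψ G₀ : ℂ → ℂ} {k κ : ℕ} {η C : ℝ}

/-- bounded square means, eventually -/
def BSq (f : ℝ → ℝ) : Prop := ∃ B : ℝ, ∀ᶠ Y : ℝ in atTop,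
  ∫ y in Real.exp 1..Y, (Real.log y * f y) ^ 2 / y ≤ B * Real.log Y

theorem bsq_congr {f g : ℝ → ℝ} (h : ∀ y : ℝ, Real.exp 1 ≤ y → f y = g y) : BSq f ↔ BSq g := by
  unfold BSq
  refine exists_congr fun B => ?_
  constructor
  · intro h1
    filter_upwards [h1, eventually_ge_atTop (Real.exp 1)] with Y h2 hY
    rwa [← msq_congr h hY]
  · intro h1
    filter_upwards [h1, eventually_ge_atTop (Real.exp 1)] with Y h2 hY
    rwa [msq_congr h hY]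

theorem msq_tendsto {f g : ℝ → ℝ} (h : ∀ y : ℝ, Real.exp 1 ≤ y → f y = g y) {V : ℝ} :
    Tendsto (MSq f) atTop (𝓝 V) ↔ Tendsto (MSq g) atTop (𝓝 V) := by
  refine tendsto_congr' ?_
  filter_upwards [eventually_ge_atTop (Real.exp 1)] with Y hY
  unfold MSq
  rw [msq_congr h hY]

/-- **prime powers** -/
theorem pack (H : Mc N α Ψ G₀ k κ η C) (ρ : ℝ) {A : ℝ} (hA : 0 < A) {P : Prop}
    (hP : P ↔ ((∀ s : ℂ, 0 < s.re → Ψ s ≠ 0) ∧ ∃ m : ℤ, ρ = m ∧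
      Tendsto (fun s => Ψ s / s ^ m) (𝓝[≠] 0) (𝓝 (A : ℂ)))) {m : ℝ → ℕ}
    (hm : ∀ t, mu Ψ t = m t) {f : ℝ → ℝ}
    (hf : ∀ y : ℝ, Real.exp 1 ≤ y → f y = -DvR N α ρ A y) :
    List.TFAE [P, BSq f, ∃ V : ℝ, HasSum (fun t : ℝ => ((m t : ℝ) / t) ^ 2) V ∧
      Tendsto (MSq f) atTop (𝓝 V)] ∧
    (P → ∀ t : ℝ, Tendsto (FB f t) atTop (𝓝 (-((m t : ℂ) * I / t)))) := by
  have hm' : mu Ψ = m := funext hm
  have t := mc_tfae H ρ hA
  have e1 : ∀ y, (Real.log y * -DvR N α ρ A y) ^ 2 = (Real.log y * DvR N α ρ A y) ^ 2 := by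
    intro y
    ring
  have e2 : BSq (fun y => -DvR N α ρ A y) ↔ ∃ B : ℝ, ∀ᶠ Y : ℝ in atTop,
      ∫ y in Real.exp 1..Y, (Real.log y * DvR N α ρ A y) ^ 2 / y ≤ B * Real.log Y := by
    unfold BSq
    simp only [e1]
  have h2 : P ↔ BSq f := by
    rw [hP, bsq_congr hf, e2]
    exact t.out 0 1
  refine ⟨?_, fun hp t => ?_⟩
  · tfae_have 1 ↔ 2 := h2
    tfae_have 1 ↔ 3 := by
      rw [hP, ← hm']
      refine (t.out 0 2).trans (exists_congr fun V => and_congr_right fun _ => ?_)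
      rw [msq_tendsto hf]
      unfold MSq
      simp only [e1]
    tfae_finish
  · have h3 := h2.1 hp
    rw [bsq_congr hf, e2] at h3
    have h4 := (mc_coeff H ρ A h3 t).neg
    rw [hm t] at h4
    refine h4.congr' ?_
    filter_upwards [eventually_ge_atTop (Real.exp 1)] with Y hY
    rw [fb_congr hf t hY]
    unfold FB
    rw [← neg_div, ← intervalIntegral.integral_neg]
    congr 1
    refine intervalIntegral.integral_congr fun y _ => ?_
    push_cast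
    ring

/-- **primes** -/
theorem packP (H : Mc N α Ψ G₀ k κ η C) (ρ : ℝ) {A : ℝ} (hA : 0 < A) {P : Prop}
    (hP : P ↔ ((∀ s : ℂ, 0 < s.re → Ψ s ≠ 0) ∧ ∃ m : ℤ, ρ = m ∧
      Tendsto (fun s => Ψ s / s ^ m) (𝓝[≠] 0) (𝓝 (A : ℂ)))) {m : ℝ → ℕ}
    (hm : ∀ t, mu Ψ t = m t) {c : ℝ}
    (hc : Tendsto (fun y : ℝ => Real.log y * (Sq N α y - c)) atTop (𝓝 0)) {f : ℝ → ℝ}
    (hf : ∀ y : ℝ, Real.exp 1 ≤ y → f y = DvP N α ρ A c y) :
    List.TFAE [P, BSq f, ∃ V : ℝ, HasSum (fun t : ℝ => ((m t : ℝ) / t) ^ 2) V ∧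
      Tendsto (MSq f) atTop (𝓝 V)] ∧
    (P → ∀ t : ℝ, Tendsto (FB f t) atTop (𝓝 (-((m t : ℂ) * I / t)))) := by
  have hm' : mu Ψ = m := funext hm
  have t := prime_tfae H ρ hA hc
  have h2 : P ↔ BSq f := by
    rw [hP, bsq_congr hf]
    exact t.out 0 1
  refine ⟨?_, fun hp t' => ?_⟩
  · tfae_have 1 ↔ 2 := h2
    tfae_have 1 ↔ 3 := by
      rw [hP, ← hm']
      refine (t.out 0 2).trans (exists_congr fun V => and_congr_right fun _ => ?_)
      rw [msq_tendsto hf]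
      unfold MSq
      exact Iff.rfl
    tfae_finish
  · have h3 : ∃ B : ℝ, ∀ᶠ Y : ℝ in atTop,
        ∫ y in Real.exp 1..Y, (Real.log y * DvR N α ρ A y) ^ 2 / y ≤ B * Real.log Y :=
      ((mc_tfae H ρ hA).out 0 1).1 (hP.1 hp)
    have h4 := (prime_coeff H ρ A hc h3 t').neg
    rw [hm t'] at h4
    refine h4.congr' ?_
    filter_upwards [eventually_ge_atTop (Real.exp 1)] with Y hY
    rw [fb_congr hf t' hY]
    unfold FB
    rw [← neg_div, ← intervalIntegral.integral_neg]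
    congr 1
    refine intervalIntegral.integral_congr fun y _ => ?_
    push_cast
    ring

/-- translation of the centre -/
theorem mu_shift (F : ℂ → ℂ) (c : ℂ) (t : ℝ) :
    mu (fun s => F (c + s)) t = (analyticOrderAt F (c + t * I)).toNat := by
  unfold mu
  have h1 : AnalyticAt ℂ (fun s : ℂ => c + s) (t * I) := by fun_prop
  have h2 : deriv (fun s : ℂ => c + s) (t * I) ≠ 0 := by
    simp
  have h3 := analyticOrderAt_comp_of_deriv_ne_zero (f := F) h1 h2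
  rw [← h3]
  rfl

end Pool.Agent.Q5.BP
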