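import Pool.Agent.H21.L.R_pool_sql_team_seeded_2aa45f1a.Q5.BP.Lim
import Pool.Agent.H21.L.R_seed8.TH270.MS.Main
import Pool.Agent.H21.L.R_seed8.W263.BSD.Lead1

/-!
# The error term of a Dirichlet series without zeros in the half plane
-/

set_option autoImplicit false

open MeasureTheory Filter Topology Set Complex
open scoped ENNReal
open Pool.Agent.TH942.LS (Dat)
open Pool.Agent.TH942.SL (DD)
open Pool.Agent.TH270.MS (Sh sh_le sh_meas sh_zero sh_lap Cn log_line ferr_meas)
open Pool.Agent.W263.BSD (integral_log_exp integrable_log_exp)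

namespace Pool.Agent.Q5.BP

variable {lam c : ℕ → ℝ} {δ σ : ℝ}

/-- the error term -/
noncomputable def hh (lam c : ℕ → ℝ) (r q : ℝ) (u : ℝ) : ℂ :=
  (Ioi (0 : ℝ)).indicator (fun u => ((Sh lam c u - r * Real.log u - q : ℝ) : ℂ)) u

theorem hh_pos (r q : ℝ) {u : ℝ} (hu : 0 < u) :
    hh lam c r q u = ((Sh lam c u - r * Real.log u - q : ℝ) : ℂ) := by
  unfold hh
  rw [indicator_of_mem (show u ∈ Ioi (0 : ℝ) from hu)]

theorem hh_meas (D : Dat lam c δ σ) (r q : ℝ) : Measurable (hh lam c r q) :=
  (Complex.measurable_ofReal.comp (ferr_meas D r q)).indicator measurableSet_Ioi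

/-- the square is integrable near the origin -/
theorem near_int (D : Dat lam c δ σ) (r q : ℝ) :
    IntegrableOn (fun u : ℝ => (Sh lam c u - r * Real.log u - q) ^ 2) (Ioc 0 1) := by
  set S₀ : ℝ := ∑' n, |c n| * Real.exp (-(σ * lam n)) with hS₀
  have h0 : 0 ≤ S₀ := tsum_nonneg fun n => by positivity
  have i1 : IntegrableOn (fun u : ℝ => Real.log u ^ 2) (Ioc 0 1) := by
    have h1 := Pool.Agent.TH270.MS.LocL2.logsq_int 1
    rw [intervalIntegrable_iff_integrableOn_Ioc_of_le (by norm_num)] at h1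
    exact h1.mono_set (Ioc_subset_Ioc_left (by norm_num))
  have i2 : IntegrableOn (fun u : ℝ => 3 * (Real.exp σ * S₀) ^ 2 + 3 * r ^ 2 * Real.log u ^ 2 +
      3 * q ^ 2) (Ioc 0 1) :=
    ((integrableOn_const (by simp)).add (i1.const_mul _)).add (integrableOn_const (by simp))
  refine i2.mono' ((ferr_meas D r q).pow_const 2).aestronglyMeasurable ?_
  filter_upwards [ae_restrict_mem measurableSet_Ioc] with u hu
  have e1 := sh_le D u
  have e3 : Real.exp (σ * u) ≤ Real.exp σ := by
    apply Real.exp_le_exp.2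
    have := D.σ0
    nlinarith [hu.2]
  have e2 : |Sh lam c u| ≤ Real.exp σ * S₀ := e1.trans (mul_le_mul_of_nonneg_right e3 h0)
  have e4 : Sh lam c u ^ 2 ≤ (Real.exp σ * S₀) ^ 2 := by
    rw [← sq_abs (Sh lam c u)]
    exact pow_le_pow_left₀ (abs_nonneg _) e2 2
  rw [Real.norm_of_nonneg (sq_nonneg _)]
  nlinarith [sq_nonneg (Sh lam c u + r * Real.log u), sq_nonneg (Sh lam c u + q),
    sq_nonneg (r * Real.log u - q)]

theorem hh_HL (D : Dat lam c δ σ) {r q : ℝ}
    (h : IntegrableOn (fun u : ℝ => (Sh lam c u - r * Real.log u - q) ^ 2) (Ioi 1)) :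
    HL (hh lam c r q) where
  zero := fun u hu => by
    unfold hh
    rw [indicator_of_notMem (by simpa using hu)]
  sq := by
    rw [memLp_two_iff_integrable_sq_norm (hh_meas D r q).aestronglyMeasurable]
    have h1 := (near_int D r q).union h
    rw [Ioc_union_Ioi_eq_Ioi zero_le_one] at h1
    refine ((integrable_indicator_iff measurableSet_Ioi).2 h1).congr
      (Eventually.of_forall fun u => ?_)
    by_cases hu : u ∈ Ioi (0 : ℝ)
    · simp only [indicator_of_mem hu]
      rw [hh_pos r q hu, Complex.norm_real, Real.norm_eq_abs, sq_abs]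
    · simp only [indicator_of_notMem hu]
      unfold hh
      rw [indicator_of_notMem hu]
      simp

/-- the Laplace transform of the logarithm -/
theorem log_lap {x : ℝ} (hx : 0 < x) :
    IntegrableOn (fun u : ℝ => Real.log u * Real.exp (-(x * u))) (Ioi 0) ∧
      ∫ u in Ioi (0 : ℝ), Real.log u * Real.exp (-(x * u)) =
        -(Real.eulerMascheroniConstant + Real.log x) / x := by
  have hexp : IntegrableOn (fun u : ℝ => Real.exp (-(x * u))) (Ioi 0) := by
    have := integrableOn_exp_mul_Ioi (a := -x) (by linarith) 0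
    simpa [neg_mul] using this
  have hexp1 : ∫ u in Ioi (0 : ℝ), Real.exp (-(x * u)) = 1 / x := by
    have := integral_exp_mul_Ioi (a := -x) (by linarith) 0
    simp only [neg_mul] at this
    rw [this]
    simp
  have h1 : IntegrableOn (fun u : ℝ => Real.log (x * u) * Real.exp (-(x * u))) (Ioi 0) := by
    have := (integrableOn_Ioi_comp_mul_left_iff
      (fun t : ℝ => Real.log t * Real.exp (-t)) 0 hx).2 (by simpa using integrable_log_exp)
    exact this
  have h2 : ∫ u in Ioi (0 : ℝ), Real.log (x * u) * Real.exp (-(x * u)) =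
      -Real.eulerMascheroniConstant / x := by
    have := integral_comp_mul_left_Ioi (fun t : ℝ => Real.log t * Real.exp (-t)) 0 hx
    rw [mul_zero, integral_log_exp] at this
    rw [this, smul_eq_mul]
    field_simp
  have h3 : EqOn (fun u : ℝ => Real.log (x * u) * Real.exp (-(x * u)) -
      Real.log x * Real.exp (-(x * u))) (fun u : ℝ => Real.log u * Real.exp (-(x * u))) (Ioi 0) := by
    intro u hu
    have hu0 : (0 : ℝ) < u := hu
    simp only
    rw [Real.log_mul hx.ne' hu0.ne']
    ring
  have h4 : IntegrableOn (fun u : ℝ => Real.log (x * u) * Real.exp (-(x * u)) -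
      Real.log x * Real.exp (-(x * u))) (Ioi 0) := h1.sub (hexp.const_mul _)
  refine ⟨h4.congr_fun h3 measurableSet_Ioi, ?_⟩
  rw [← setIntegral_congr_fun measurableSet_Ioi h3, integral_sub h1 (hexp.const_mul _), h2,
    integral_const_mul, hexp1]
  field_simp
  ring

/-- the Laplace transform of the error term on the real axis -/
theorem hh_lap (D : Dat lam c δ σ) (r q : ℝ) {x : ℝ} (hx : σ < x) :
    La (hh lam c r q) x = (DD lam c x + r * (Real.eulerMascheroniConstant + Real.log x) - q) / x := by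
  have hx0 : 0 < x := D.σ0.trans hx
  have hxC : (x : ℂ) ≠ 0 := by exact_mod_cast hx0.ne'
  obtain ⟨hl1, hl2⟩ := log_lap hx0
  set S₀ : ℝ := ∑' n, |c n| * Real.exp (-(σ * lam n)) with hS₀
  have h0 : 0 ≤ S₀ := tsum_nonneg fun n => by positivity
  have iexp : IntegrableOn (fun u : ℝ => Real.exp (-(x * u))) (Ioi 0) := by
    have := integrableOn_exp_mul_Ioi (a := -x) (by linarith) 0
    simpa [neg_mul] using this
  have hexp1 : ∫ u in Ioi (0 : ℝ), Real.exp (-(x * u)) = 1 / x := by
    have := integral_exp_mul_Ioi (a := -x) (by linarith) 0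
    simp only [neg_mul] at this
    rw [this]
    simp
  have iexp2 : IntegrableOn (fun u : ℝ => S₀ * Real.exp (-((x - σ) * u))) (Ioi 0) := by
    have h : IntegrableOn (fun u : ℝ => S₀ * Real.exp (-(x - σ) * u)) (Ioi 0) :=
      (integrableOn_exp_mul_Ioi (a := -(x - σ)) (by linarith) 0).const_mul S₀
    refine h.congr_fun (fun u _ => ?_) measurableSet_Ioi
    simp only [neg_mul]
  have iS : IntegrableOn (fun u : ℝ => Sh lam c u * Real.exp (-(x * u))) (Ioi 0) := by
    refine iexp2.mono' (((sh_meas D).mul (by fun_prop)).aestronglyMeasurable) ?_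
    filter_upwards [ae_restrict_mem measurableSet_Ioi] with u hu
    rw [norm_mul, Real.norm_eq_abs, Real.norm_of_nonneg (Real.exp_pos _).le]
    calc |Sh lam c u| * Real.exp (-(x * u)) ≤ (Real.exp (σ * u) * S₀) * Real.exp (-(x * u)) :=
          mul_le_mul_of_nonneg_right (sh_le D u) (Real.exp_pos _).le
      _ = S₀ * (Real.exp (σ * u) * Real.exp (-(x * u))) := by ring
      _ = _ := by
        rw [← Real.exp_add]
        ring_nf
  have hS : (∫ u in Ioi (0 : ℝ), Sh lam c u * Real.exp (-(x * u)) : ℝ) =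
      (DD lam c x / x : ℂ) := by
    have h1 := sh_lap D (s := (x : ℂ)) (by simpa using hx)
    rw [← h1, ← integral_complex_ofReal]
    have h2 : ∀ u : ℝ, (Sh lam c u : ℂ) * exp (-((x : ℂ) * u)) =
        (Ioi (0 : ℝ)).indicator (fun u : ℝ => ((Sh lam c u * Real.exp (-(x * u)) : ℝ) : ℂ)) u := by
      intro u
      by_cases hu : u ∈ Ioi (0 : ℝ)
      · rw [indicator_of_mem hu]
        push_cast
        rfl
      · rw [indicator_of_notMem hu, sh_zero D]
        · simp
        · have : u ≤ 0 := not_lt.1 hu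
          exact this.trans_lt D.δ0
    simp_rw [h2]
    rw [integral_indicator measurableSet_Ioi]
  have e1 : La (hh lam c r q) x = ((∫ u in Ioi (0 : ℝ), (Sh lam c u * Real.exp (-(x * u)) -
      r * (Real.log u * Real.exp (-(x * u))) - q * Real.exp (-(x * u))) : ℝ) : ℂ) := by
    unfold La
    rw [← integral_complex_ofReal, ← integral_indicator measurableSet_Ioi]
    refine integral_congr_ae (Eventually.of_forall fun u => ?_)
    simp only
    by_cases hu : u ∈ Ioi (0 : ℝ)
    · rw [indicator_of_mem hu, hh_pos r q hu]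
      push_cast
      ring
    · rw [indicator_of_notMem hu]
      unfold hh
      rw [indicator_of_notMem hu, zero_mul]
  have i4 : IntegrableOn (fun u : ℝ => Sh lam c u * Real.exp (-(x * u)) -
      r * (Real.log u * Real.exp (-(x * u)))) (Ioi 0) := iS.sub (hl1.const_mul r)
  rw [e1, integral_sub i4 (iexp.const_mul q), integral_sub iS
    (hl1.const_mul r), integral_const_mul, integral_const_mul, hl2, hexp1]
  simp only [Complex.ofReal_sub]
  rw [hS]
  push_cast
  field_simp
  ring

theorem dd_le (D : Dat lam c δ σ) {s : ℂ} (hs : σ ≤ s.re) :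
    ‖DD lam c s‖ ≤ ∑' n, |c n| * Real.exp (-(σ * lam n)) := by
  unfold DD
  refine tsum_of_norm_bounded D.sum.hasSum fun n => ?_
  rw [Pool.Agent.TH942.SL.dd_term]
  refine mul_le_mul_of_nonneg_left (Real.exp_le_exp.2 ?_) (abs_nonneg _)
  have h1 : 0 ≤ lam n := D.δ0.le.trans (D.lam_ge n)
  nlinarith

variable {G₀ g : ℂ → ℂ} {k p κ : ℕ} {η C : ℝ}

/-- **The error term as a datum for the mean square.** -/
theorem cn_bp (E : Cn lam c δ σ G₀ g k p κ η C) (hne : ∀ s : ℂ, 0 < s.re → G₀ s ≠ 0) {r q : ℝ}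
    (hr : (p : ℝ) = k + r) (hq : g 0 = Real.exp (r * Real.eulerMascheroniConstant - q)) :
    ∃ a B : ℝ, Bp (hh lam c r q) G₀ p κ η C a B (r * Real.eulerMascheroniConstant - q : ℝ) := by
  have D := E.D
  have hσ := D.σ0
  have H : HL (hh lam c r q) := by
    have h1 := (E.tfae r q).out 0 1
    exact hh_HL D (h1.1 ⟨hne, hr, hq⟩)
  set S₀ : ℝ := ∑' n, |c n| * Real.exp (-(σ * lam n)) with hS₀
  have h0 : 0 ≤ S₀ := tsum_nonneg fun n => by positivity
  set a : ℝ := max (σ + 1) 1 with ha
  have ha1 : 1 ≤ a := le_max_right _ _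
  have haσ : σ < a := lt_of_lt_of_le (by linarith) (le_max_left _ _)
  have hla : 0 ≤ Real.log (2 * a) := Real.log_nonneg (by linarith)
  set B : ℝ := k * (Real.log (2 * a) + 4) + S₀ with hB
  set κ₀ : ℂ := ((r * Real.eulerMascheroniConstant - q : ℝ) : ℂ) with hκ₀
  refine ⟨a, B, ⟨H, E.hη, E.hG, E.hgrow, ?_, ⟨g, E.hg, E.hg0, E.near⟩, ha1, by positivity, ?_⟩⟩
  · -- the identity theorem
    have hU : IsOpen {s : ℂ | 0 < s.re} := open_re 0
    have hUc : IsPreconnected {s : ℂ | 0 < s.re} := (conv_re 0).isPreconnected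
    have a1 : AnalyticOnNhd ℂ G₀ {s : ℂ | 0 < s.re} :=
      DifferentiableOn.analyticOnNhd (fun s hs => (E.hG s (by
        have := E.hη
        have hs' : 0 < s.re := hs
        linarith)).differentiableWithinAt) hU
    have a2 : AnalyticOnNhd ℂ (fun s => s ^ p * exp (κ₀ - s * La (hh lam c r q) s))
        {s : ℂ | 0 < s.re} :=
      DifferentiableOn.analyticOnNhd (fun s hs => ((differentiableAt_id.pow p).mul
        (((differentiableAt_id.mul (H.diff hs)).const_sub κ₀).cexp)).differentiableWithinAt) hU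
    have hreal : ∀ x : ℝ, σ < x → G₀ x = (x : ℂ) ^ p * exp (κ₀ - x * La (hh lam c r q) x) := by
      intro x hx
      have hx0 : 0 < x := hσ.trans hx
      have hxC : (x : ℂ) ≠ 0 := by exact_mod_cast hx0.ne'
      rw [← E.hexp x (by simpa using hx), hh_lap D r q hx]
      have e1 : κ₀ - x * ((DD lam c x + r * (Real.eulerMascheroniConstant + Real.log x) - q) / x) =
          -DD lam c x + ((-(r * Real.log x) : ℝ) : ℂ) := by
        rw [hκ₀]
        push_cast
        field_simp
        ring
      rw [e1, Complex.exp_add, ← mul_assoc, mul_comm ((x : ℂ) ^ p), mul_assoc, mul_comm]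
      congr 1
      rw [← Complex.ofReal_exp, ← Complex.ofReal_pow, ← Complex.ofReal_pow, ← Complex.ofReal_mul]
      congr 1
      have e2 : x ^ p = Real.exp (p * Real.log x) := by
        rw [Real.exp_nat_mul, Real.exp_log hx0]
      have e3 : x ^ k = Real.exp (k * Real.log x) := by
        rw [Real.exp_nat_mul, Real.exp_log hx0]
      rw [e2, e3, ← Real.exp_add, hr]
      congr 1
      ring
    have hfreq : ∃ᶠ z in 𝓝[≠] ((σ + 1 : ℝ) : ℂ), G₀ z =
        z ^ p * exp (κ₀ - z * La (hh lam c r q) z) := by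
      have t1 : Tendsto (fun x : ℝ => (x : ℂ)) (𝓝[≠] (σ + 1)) (𝓝[≠] ((σ + 1 : ℝ) : ℂ)) := by
        refine tendsto_nhdsWithin_of_tendsto_nhds_of_eventually_within _ ?_ ?_
        · exact (Complex.continuous_ofReal.tendsto _).mono_left nhdsWithin_le_nhds
        · filter_upwards [self_mem_nhdsWithin] with x hx
          intro h
          exact hx (Complex.ofReal_injective h)
      refine t1.frequently ?_
      refine Eventually.frequently ?_
      have h1 : ∀ᶠ x : ℝ in 𝓝[≠] (σ + 1), σ < x :=
        nhdsWithin_le_nhds (lt_mem_nhds (by linarith))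
      filter_upwards [h1] with x hx
      exact hreal x hx
    have hkey := a1.eqOn_of_preconnected_of_frequently_eq a2 hUc
      (show ((σ + 1 : ℝ) : ℂ) ∈ {s : ℂ | 0 < s.re} by
        show 0 < ((σ + 1 : ℝ) : ℂ).re
        rw [Complex.ofReal_re]
        linarith) hfreq
    exact fun s hs => hkey hs
  · intro T
    have hre : ((a : ℂ) + T * I).re = a := by simp
    have hs0 : (a : ℂ) + T * I ≠ 0 := by
      intro h
      rw [h] at hre
      simp at hre
      linarith
    rw [← E.hexp _ (by rw [hre]; exact haσ), norm_mul, norm_pow, Complex.norm_exp,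
      Real.log_mul (pow_ne_zero _ (norm_ne_zero_iff.2 hs0)) (Real.exp_ne_zero _), Real.log_exp,
      Real.log_pow]
    have h1 : |Real.log ‖(a : ℂ) + T * I‖| ≤ ‖log ((a : ℂ) + T * I)‖ := by
      rw [← Complex.log_re]
      exact Complex.abs_re_le_norm _
    have h2 := log_line ha1 T
    have h3 : |(-DD lam c (a + T * I)).re| ≤ S₀ := by
      refine (Complex.abs_re_le_norm _).trans ?_
      rw [norm_neg]
      exact dd_le D (by rw [hre]; exact haσ.le)
    have h4 : 0 ≤ Real.log (1 + |T|) := Real.log_nonneg (by linarith [abs_nonneg T])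
    refine (abs_add_le _ _).trans ?_
    rw [abs_mul, Nat.abs_cast]
    have h5 : (k : ℝ) * |Real.log ‖(a : ℂ) + T * I‖| ≤
        k * ((Real.log (2 * a) + 4) * (1 + Real.log (1 + |T|))) :=
      mul_le_mul_of_nonneg_left (h1.trans h2) (Nat.cast_nonneg _)
    rw [hB]
    nlinarith [mul_nonneg h0 h4]

end Pool.Agent.Q5.BP
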