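import Pool.Agent.H21.L.R_pool_sql_team_seeded_2aa45f1a.Q5.BP.Lim

/-!
# The Fourier-Bohr coefficients
-/

set_option autoImplicit false

open MeasureTheory Filter Topology Set Complex
open scoped ENNReal

namespace Pool.Agent.Q5.BP

variable {h : ℝ → ℂ} {F : ℂ → ℂ} {p κ : ℕ} {η C a B : ℝ} {κ₀ : ℂ}

/-- the trigonometric polynomials of the zeros approximate the function in square mean -/
theorem Bp.seq (Q : Bp h F p κ η C a B κ₀) : ∃ (R : ℕ → ℝ) (Z : ℕ → Finset ℝ) (d : ℕ → ℝ),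
    (∀ n : ℕ, (n : ℝ) + 1 ≤ R n) ∧ (∀ n, ∀ τ ∈ Z n, τ ≠ 0) ∧ (∀ n, ∀ τ ∈ Z n, |τ| < R n) ∧
    (∀ n, ∀ τ : ℝ, |τ| ≤ R n → τ ≠ 0 → F (τ * I) = 0 → τ ∈ Z n) ∧
    (∀ n, ∀ τ ∈ Z n, F (τ * I) = 0) ∧
    Tendsto d atTop (𝓝 0) ∧
    ∀ n, ∀ ε > 0, ∀ᶠ T in atTop, NT (fun u => (u : ℂ) * h u - Pz F (Z n) u) T ≤ d n + ε := by
  obtain ⟨K, hK0, hK⟩ := Q.approx
  choose R Z hR1 hR2 hZ0 hZR hZ hZF using Q.exists_Z
  set d : ℕ → ℝ := fun n => √(K * (tl (R n - 1)).toReal) with hdd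
  have hd : Tendsto d atTop (𝓝 0) := by
    have h1 : Tendsto (fun n => R n - 1) atTop atTop := by
      refine tendsto_atTop_mono (fun n => ?_) tendsto_natCast_atTop_atTop
      linarith [hR1 n]
    have h2 : Tendsto (fun n => (tl (R n - 1)).toReal) atTop (𝓝 0) := by
      have h3 := (ENNReal.tendsto_toReal ENNReal.zero_ne_top).comp (tl_tendsto.comp h1)
      rw [ENNReal.toReal_zero] at h3
      exact h3
    have h3 := h2.const_mul K
    rw [mul_zero] at h3
    have h4 := (Real.continuous_sqrt.tendsto _).comp h3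
    rw [Real.sqrt_zero] at h4
    exact h4
  refine ⟨R, Z, d, hR1, hZ0, hZR, hZ, hZF, hd, ?_⟩
  intro n ε hε
  obtain ⟨M, hM0, hM⟩ := hK (R n) (Z n) (by
    have : (0 : ℝ) ≤ n := n.cast_nonneg
    linarith [hR1 n]) (hZ0 n) (hZR n) (hZ n)
  have h1 : ∀ᶠ T : ℝ in atTop, M.toReal / T ≤ ε ^ 2 := by
    have h2 : Tendsto (fun T : ℝ => M.toReal / T) atTop (𝓝 0) :=
      tendsto_const_nhds.div_atTop tendsto_id
    exact (h2.eventually (gt_mem_nhds (show (0 : ℝ) < ε ^ 2 by positivity))).mono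
      fun T h => h.le
  filter_upwards [h1, eventually_ge_atTop 1] with T h2 hT
  have hT0 : 0 < T := by linarith
  have h3 := hM T hT
  have htl := (tl_lt (R n - 1)).ne
  have h4 : NT (fun u => (u : ℂ) * h u - Pz F (Z n) u) T ^ 2 ≤
      M.toReal / T + K * (tl (R n - 1)).toReal := by
    unfold NT
    rw [div_pow, Real.sq_sqrt hT0.le, ← ENNReal.toReal_pow, el_sq]
    have h5 := ENNReal.toReal_mono (ENNReal.add_ne_top.2 ⟨hM0, ENNReal.mul_ne_top
      ENNReal.ofReal_ne_top htl⟩) h3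
    rw [ENNReal.toReal_add hM0 (ENNReal.mul_ne_top ENNReal.ofReal_ne_top htl),
      ENNReal.toReal_mul, ENNReal.toReal_ofReal (by positivity)] at h5
    rw [div_le_iff₀ hT0]
    refine h5.trans (le_of_eq ?_)
    field_simp
  have h5 : NT (fun u => (u : ℂ) * h u - Pz F (Z n) u) T ^ 2 ≤ (d n + ε) ^ 2 := by
    have h6 : d n ^ 2 = K * (tl (R n - 1)).toReal := Real.sq_sqrt (by positivity)
    have h7 : 0 ≤ d n := Real.sqrt_nonneg _
    nlinarith
  have h8 : 0 ≤ d n + ε := add_nonneg (Real.sqrt_nonneg _) hε.le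
  exact abs_le_of_sq_le_sq' h5 h8 |>.2

/-- the mean is bounded by the quadratic mean -/
theorem mean_le_NT {f : ℝ → ℂ} {T : ℝ} (hT : 0 < T) (hf : MemLp f 2 (volume.restrict (Ioc 0 T))) :
    ‖(∫ u in (0 : ℝ)..T, f u) / T‖ ≤ NT f T := by
  have h1 : eLpNorm f 1 (volume.restrict (Ioc 0 T)) ≤
      eLpNorm f 2 (volume.restrict (Ioc 0 T)) * ENNReal.ofReal √T := by
    have := eLpNorm_le_eLpNorm_mul_rpow_measure_univ (μ := volume.restrict (Ioc 0 T))
      (p := 1) (q := 2) (by norm_num) hf.aestronglyMeasurable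
    refine this.trans (le_of_eq ?_)
    congr 1
    rw [Measure.restrict_apply MeasurableSet.univ, univ_inter, Real.volume_Ioc, sub_zero,
      ENNReal.ofReal_rpow_of_pos hT, Real.sqrt_eq_rpow]
    norm_num
  have h2 : ‖∫ u in Ioc 0 T, f u‖ ≤ (eLpNorm f 2 (volume.restrict (Ioc 0 T))).toReal * √T := by
    have h3 : ENNReal.ofReal ‖∫ u in Ioc 0 T, f u‖ ≤ eLpNorm f 1 (volume.restrict (Ioc 0 T)) := by
      rw [ofReal_norm, eLpNorm_one_eq_lintegral_enorm]
      exact enorm_integral_le_lintegral_enorm _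
    have h4 := ENNReal.toReal_mono (ENNReal.mul_ne_top hf.eLpNorm_lt_top.ne
      ENNReal.ofReal_ne_top) (h3.trans h1)
    rwa [ENNReal.toReal_ofReal (norm_nonneg _), ENNReal.toReal_mul,
      ENNReal.toReal_ofReal (Real.sqrt_nonneg _)] at h4
  rw [intervalIntegral.integral_of_le hT.le, norm_div, Complex.norm_real,
    Real.norm_of_nonneg hT.le]
  unfold NT
  rw [div_le_div_iff₀ hT (Real.sqrt_pos.2 hT)]
  calc ‖∫ u in Ioc 0 T, f u‖ * √T ≤
      ((eLpNorm f 2 (volume.restrict (Ioc 0 T))).toReal * √T) * √T :=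
        mul_le_mul_of_nonneg_right h2 (Real.sqrt_nonneg _)
    _ = _ := by
      rw [mul_assoc, Real.mul_self_sqrt hT.le]

/-- the coefficient of a trigonometric polynomial -/
theorem trig_coeff (Z : Finset ℝ) (c : ℝ → ℂ) (t : ℝ) :
    Tendsto (fun T : ℝ => (∫ u in (0 : ℝ)..T, (∑ τ ∈ Z, c τ * exp (τ * I * u)) *
      exp (-(t * I * u))) / T) atTop (𝓝 (if t ∈ Z then c t else 0)) := by
  have hpt : ∀ u : ℝ, (∑ τ ∈ Z, c τ * exp (τ * I * u)) * exp (-(t * I * u)) =
      ∑ τ ∈ Z, c τ * exp (((τ - t : ℝ) : ℂ) * I * u) := by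
    intro u
    rw [Finset.sum_mul]
    refine Finset.sum_congr rfl fun τ _ => ?_
    rw [mul_assoc, ← exp_add]
    congr 2
    push_cast
    ring
  have hint : ∀ T : ℝ, (∫ u in (0 : ℝ)..T, (∑ τ ∈ Z, c τ * exp (τ * I * u)) *
      exp (-(t * I * u))) / T = ∑ τ ∈ Z, c τ *
        ((∫ u in (0 : ℝ)..T, exp (((τ - t : ℝ) : ℂ) * I * u)) / T) := by
    intro T
    simp_rw [hpt]
    rw [intervalIntegral.integral_finset_sum]
    · rw [Finset.sum_div]
      refine Finset.sum_congr rfl fun τ _ => ?_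
      rw [intervalIntegral.integral_const_mul]
      ring
    · intro τ _
      exact Continuous.intervalIntegrable (by fun_prop) _ _
  have h2 : (if t ∈ Z then c t else 0) = ∑ τ ∈ Z, if t = τ then c τ else 0 := by
    rw [Finset.sum_ite_eq]
  rw [h2]
  simp_rw [hint]
  refine tendsto_finset_sum _ fun τ _ => ?_
  by_cases hτ : t = τ
  · rw [if_pos hτ]
    have h1 : ∀ᶠ T : ℝ in atTop, c τ = c τ * ((∫ u in (0 : ℝ)..T,
        exp (((τ - t : ℝ) : ℂ) * I * u)) / T) := by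
      filter_upwards [eventually_gt_atTop 0] with T hT
      rw [hτ, sub_self]
      have hTc : (T : ℂ) ≠ 0 := by exact_mod_cast hT.ne'
      simp [div_self hTc]
    exact tendsto_const_nhds.congr' h1
  · rw [if_neg hτ]
    have := (exp_mean (sub_ne_zero.2 (Ne.symm hτ))).const_mul (c τ)
    rwa [mul_zero] at this

theorem mul_exp_loc {f : ℝ → ℂ} {T : ℝ} (t : ℝ) (hf : MemLp f 2 (volume.restrict (Ioc 0 T))) :
    MemLp (fun u => f u * exp (-(t * I * u))) 2 (volume.restrict (Ioc 0 T)) := by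
  refine MemLp.mono hf (hf.aestronglyMeasurable.mul
    (Continuous.aestronglyMeasurable (by fun_prop))) (Eventually.of_forall fun u => ?_)
  rw [norm_mul, Complex.norm_exp]
  simp

theorem NT_exp (f : ℝ → ℂ) (t T : ℝ) : NT (fun u => f u * exp (-(t * I * u))) T = NT f T := by
  unfold NT
  congr 2
  refine eLpNorm_congr_norm_ae (Eventually.of_forall fun u => ?_)
  rw [norm_mul, Complex.norm_exp]
  simp

theorem loc_int {f : ℝ → ℂ} {T : ℝ} (hT : 0 < T) (hf : MemLp f 2 (volume.restrict (Ioc 0 T))) :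
    IntervalIntegrable f volume 0 T := by
  rw [intervalIntegrable_iff_integrableOn_Ioc_of_le hT.le]
  exact hf.integrable (by norm_num)

/-- **The Fourier-Bohr coefficients of the error term are given by the zeros.** -/
theorem Bp.coeff (Q : Bp h F p κ η C a B κ₀) (t : ℝ) :
    Tendsto (fun T : ℝ => (∫ u in (0 : ℝ)..T, ((u : ℂ) * h u) * exp (-(t * I * u))) / T) atTop
      (𝓝 ((mu F t : ℂ) / (t * I))) := by
  obtain ⟨R, Z, d, hR1, hZ0, hZR, hZ, hZF, hd, herr⟩ := Q.seq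
  set f : ℝ → ℂ := fun u => (u : ℂ) * h u with hf
  have hval : ∀ n : ℕ, |t| ≤ R n → (if t ∈ Z n then (mu F t : ℂ) / (t * I) else 0) =
      (mu F t : ℂ) / (t * I) := by
    intro n hn
    split_ifs with h1
    · rfl
    · by_cases h2 : t = 0
      · rw [h2]
        simp
      · have h3 : F (t * I) ≠ 0 := fun h4 => h1 (hZ n t hn h2 h4)
        rw [Q.mu_zero h3]
        simp
  rw [Metric.tendsto_nhds]
  intro ε hε
  obtain ⟨n, hn1, hn2⟩ := ((hd.eventually (gt_mem_nhds (show (0 : ℝ) < ε / 4 by linarith))).and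
    (eventually_ge_atTop ⌈|t|⌉₊)).exists
  have hn3 : |t| ≤ R n := by
    have h1 : |t| ≤ (⌈|t|⌉₊ : ℝ) := Nat.le_ceil _
    have h2 : ((⌈|t|⌉₊ : ℕ) : ℝ) ≤ n := by exact_mod_cast hn2
    linarith [hR1 n]
  have h1 := trig_coeff (Z n) (fun τ => (mu F τ : ℂ) / (τ * I)) t
  rw [hval n hn3] at h1
  have h2 := (Metric.tendsto_nhds.1 h1) (ε / 4) (by linarith)
  filter_upwards [h2, herr n (ε / 4) (by linarith), eventually_gt_atTop 0] with T h3 h4 hT
  have m1 : MemLp f 2 (volume.restrict (Ioc 0 T)) := Q.H.loc T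
  have m2 := pz_loc F (Z n) T
  have m3 : MemLp (fun u => f u - Pz F (Z n) u) 2 (volume.restrict (Ioc 0 T)) := m1.sub m2
  have h5 := mean_le_NT hT (mul_exp_loc t m3)
  rw [NT_exp] at h5
  have h6 : (∫ u in (0 : ℝ)..T, (f u - Pz F (Z n) u) * exp (-(t * I * u))) =
      (∫ u in (0 : ℝ)..T, f u * exp (-(t * I * u))) -
        ∫ u in (0 : ℝ)..T, Pz F (Z n) u * exp (-(t * I * u)) := by
    rw [← intervalIntegral.integral_sub (loc_int hT (mul_exp_loc t m1))
      (loc_int hT (mul_exp_loc t m2))]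
    refine intervalIntegral.integral_congr fun u _ => ?_
    ring
  rw [h6, sub_div] at h5
  set x : ℂ := (∫ u in (0 : ℝ)..T, f u * exp (-(t * I * u))) / T
  set y : ℂ := (∫ u in (0 : ℝ)..T, Pz F (Z n) u * exp (-(t * I * u))) / T with hy
  have h7 : dist y ((mu F t : ℂ) / (t * I)) < ε / 4 := h3
  have h8 : dist x y ≤ NT (fun u => f u - Pz F (Z n) u) T := by
    rw [dist_eq_norm]
    exact h5
  have h9 := dist_triangle x y ((mu F t : ℂ) / (t * I))
  have h4' : NT (fun u => f u - Pz F (Z n) u) T ≤ d n + ε / 4 := h4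
  show dist x ((mu F t : ℂ) / (t * I)) < ε
  linarith

end Pool.Agent.Q5.BP
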