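import Pool.Agent.H21.L.R_seed8.TH270.MS.Fwd
import Pool.Agent.H21.L.R_seed8.H153R4.Pl

/-!
# Laplace transforms of square integrable functions on the half line
-/

set_option autoImplicit false

open MeasureTheory Filter Topology Set Complex
open scoped ENNReal FourierTransform

namespace Pool.Agent.Q5.BP

/-- the exponential with the weight one is square integrable -/
theorem exp_memLp {x : ℝ} (hx : 0 < x) :
    MemLp (fun u : ℝ => (Ioi (0 : ℝ)).indicator (fun u => Real.exp (-(x * u))) u) 2 := by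
  have hm : AEStronglyMeasurable
      (fun u : ℝ => (Ioi (0 : ℝ)).indicator (fun u => Real.exp (-(x * u))) u) volume :=
    ((by fun_prop : Measurable fun u : ℝ => Real.exp (-(x * u))).indicator
      measurableSet_Ioi).aestronglyMeasurable
  rw [memLp_two_iff_integrable_sq_norm hm]
  have h1 : IntegrableOn (fun u : ℝ => Real.exp (-(2 * x) * u)) (Ioi 0) :=
    integrableOn_exp_mul_Ioi (a := -(2 * x)) (by linarith) 0
  refine ((integrable_indicator_iff measurableSet_Ioi).2 h1).congr
    (Eventually.of_forall fun u => ?_)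
  by_cases hu : u ∈ Ioi (0 : ℝ)
  · simp only [indicator_of_mem hu, Real.norm_eq_abs, sq_abs]
    rw [← Real.exp_nat_mul]
    congr 1
    push_cast
    ring
  · simp [indicator_of_notMem hu]

theorem mul_exp_le {x u : ℝ} (hx : 0 < x) (hu : 0 < u) :
    u * Real.exp (-(x * u)) ≤ 2 / x * Real.exp (-(x / 2 * u)) := by
  have h1 : x / 2 * u ≤ Real.exp (x / 2 * u) := by
    have := Real.add_one_le_exp (x / 2 * u)
    linarith
  have h2 : Real.exp (-(x * u)) = Real.exp (-(x / 2 * u)) * Real.exp (-(x / 2 * u)) := by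
    rw [← Real.exp_add]
    ring_nf
  have h3 : Real.exp (x / 2 * u) * Real.exp (-(x / 2 * u)) = 1 := by
    rw [← Real.exp_add]
    simp
  have h4 := Real.exp_pos (-(x / 2 * u))
  have h5 : x / 2 * u * Real.exp (-(x / 2 * u)) ≤ 1 := by
    rw [← h3]
    exact mul_le_mul_of_nonneg_right h1 h4.le
  rw [h2]
  have h6 : u * Real.exp (-(x / 2 * u)) ≤ 2 / x := by
    rw [le_div_iff₀ hx]
    nlinarith
  calc u * (Real.exp (-(x / 2 * u)) * Real.exp (-(x / 2 * u))) =
      (u * Real.exp (-(x / 2 * u))) * Real.exp (-(x / 2 * u)) := by ring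
    _ ≤ _ := mul_le_mul_of_nonneg_right h6 h4.le

theorem mul_exp_memLp {x : ℝ} (hx : 0 < x) :
    MemLp (fun u : ℝ => (Ioi (0 : ℝ)).indicator (fun u => u * Real.exp (-(x * u))) u) 2 := by
  have hm : AEStronglyMeasurable
      (fun u : ℝ => (Ioi (0 : ℝ)).indicator (fun u => u * Real.exp (-(x * u))) u) volume :=
    ((by fun_prop : Measurable fun u : ℝ => u * Real.exp (-(x * u))).indicator
      measurableSet_Ioi).aestronglyMeasurable
  refine MemLp.mono ((exp_memLp (x := x / 2) (by linarith)).const_mul (2 / x)) hm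
    (Eventually.of_forall fun u => ?_)
  by_cases hu : u ∈ Ioi (0 : ℝ)
  · have hu0 : 0 < u := hu
    simp only [indicator_of_mem hu]
    rw [Real.norm_of_nonneg (by positivity), Real.norm_of_nonneg (by positivity)]
    exact mul_exp_le hx hu0
  · simp [indicator_of_notMem hu]

/-- a square integrable function on the half line -/
structure HL (h : ℝ → ℂ) : Prop where
  zero : ∀ u : ℝ, u ≤ 0 → h u = 0
  sq : MemLp h 2

variable {h : ℝ → ℂ}

/-- the Laplace transform -/
noncomputable def La (h : ℝ → ℂ) (s : ℂ) : ℂ := ∫ u : ℝ, h u * exp (-(s * u))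

theorem norm_exp_neg' (s : ℂ) (u : ℝ) : ‖exp (-(s * u))‖ = Real.exp (-(s.re * u)) := by
  rw [Complex.norm_exp]
  congr 1
  simp

theorem HL.int (H : HL h) {s : ℂ} (hs : 0 < s.re) : Integrable fun u : ℝ => h u * exp (-(s * u)) := by
  have h1 := H.sq.norm.integrable_mul (exp_memLp hs)
  refine Integrable.mono h1 (H.sq.aestronglyMeasurable.mul
    (Continuous.aestronglyMeasurable (by fun_prop))) (Eventually.of_forall fun u => ?_)
  rw [norm_mul, norm_exp_neg']
  by_cases hu : 0 < u
  · simp only [Pi.mul_apply, indicator_of_mem (show u ∈ Ioi (0 : ℝ) from hu), norm_mul, norm_norm,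
      Real.norm_of_nonneg (Real.exp_pos _).le]
    exact le_rfl
  · rw [H.zero u (not_lt.1 hu)]
    simp only [norm_zero, zero_mul]
    exact norm_nonneg _

theorem HL.int_mul (H : HL h) {s : ℂ} (hs : 0 < s.re) :
    Integrable fun u : ℝ => (u : ℂ) * h u * exp (-(s * u)) := by
  have h1 := H.sq.norm.integrable_mul (mul_exp_memLp hs)
  refine Integrable.mono h1 (((Continuous.aestronglyMeasurable (by fun_prop)).mul
    H.sq.aestronglyMeasurable).mul
    (Continuous.aestronglyMeasurable (by fun_prop))) (Eventually.of_forall fun u => ?_)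
  rw [norm_mul, norm_mul, norm_exp_neg', Complex.norm_real]
  by_cases hu : 0 < u
  · simp only [Pi.mul_apply, indicator_of_mem (show u ∈ Ioi (0 : ℝ) from hu), norm_mul, norm_norm,
      Real.norm_of_nonneg (Real.exp_pos _).le]
    exact le_of_eq (by ring)
  · rw [H.zero u (not_lt.1 hu)]
    simp only [norm_zero, zero_mul, mul_zero]
    exact norm_nonneg _

/-- the derivative of the Laplace transform -/
theorem HL.deriv (H : HL h) {s : ℂ} (hs : 0 < s.re) :
    HasDerivAt (La h) (-La (fun u => (u : ℂ) * h u) s) s := by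
  have hs2 : 0 < ((s.re / 2 : ℝ) : ℂ).re := by
    rw [Complex.ofReal_re]
    linarith
  have key := hasDerivAt_integral_of_dominated_loc_of_deriv_le (μ := volume) (𝕜 := ℂ)
    (F := fun (z : ℂ) (u : ℝ) => h u * exp (-(z * u)))
    (F' := fun (z : ℂ) (u : ℝ) => -((u : ℂ) * h u * exp (-(z * u))))
    (x₀ := s) (s := Metric.ball s (s.re / 2))
    (bound := fun u : ℝ => ‖(u : ℂ) * h u * exp (-(((s.re / 2 : ℝ) : ℂ) * u))‖)
    (Metric.ball_mem_nhds s (by linarith))
    (Eventually.of_forall fun z => H.sq.aestronglyMeasurable.mul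
      (Continuous.aestronglyMeasurable (by fun_prop)))
    (H.int hs) (H.int_mul hs).neg.aestronglyMeasurable ?_ (H.int_mul hs2).norm ?_
  · refine key.2.congr_deriv ?_
    rw [integral_neg]
    rfl
  · refine Eventually.of_forall fun u z hz => ?_
    rw [norm_neg, norm_mul, norm_mul _ (exp _)]
    rcases le_or_gt u 0 with hu | hu
    · rw [H.zero u hu]
      simp
    · refine mul_le_mul_of_nonneg_left ?_ (norm_nonneg _)
      rw [norm_exp_neg', norm_exp_neg', Complex.ofReal_re]
      apply Real.exp_le_exp.2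
      have h1 : s.re / 2 ≤ z.re := by
        rw [Metric.mem_ball, dist_eq_norm] at hz
        have h2 := (abs_le.1 ((Complex.abs_re_le_norm (z - s)).trans hz.le)).1
        rw [Complex.sub_re] at h2
        linarith
      nlinarith
  · refine Eventually.of_forall fun u z _ => ?_
    have h1 : HasDerivAt (fun z : ℂ => -(z * u)) (-(u : ℂ)) z := by
      have := ((hasDerivAt_id z).mul_const (u : ℂ)).neg
      rwa [one_mul] at this
    have h2 := (h1.cexp).const_mul (h u)
    refine h2.congr_deriv ?_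
    ring

theorem HL.diff (H : HL h) {s : ℂ} (hs : 0 < s.re) : DifferentiableAt ℂ (La h) s :=
  (H.deriv hs).differentiableAt

/-- Plancherel for the Laplace transform on a vertical line -/
theorem planch {f : ℝ → ℂ} {x : ℝ} (h1 : Integrable fun u : ℝ => f u * exp (-((x : ℂ) * u)))
    (h2 : MemLp (fun u : ℝ => f u * exp (-((x : ℂ) * u))) 2) :
    ∫⁻ u : ℝ, ‖f u * exp (-((x : ℂ) * u))‖ₑ ^ 2 =
      ENNReal.ofReal (1 / (2 * Real.pi)) * ∫⁻ t : ℝ, ‖La f (x + t * I)‖ₑ ^ 2 := by
  have h3 := Pool.Agent.H153R4.plancherel _ h1 h2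
  rw [← h3]
  have hcont : Continuous (𝓕 (fun u : ℝ => f u * exp (-((x : ℂ) * u)))) :=
    VectorFourier.fourierIntegral_continuous (L := innerₗ ℝ) Real.continuous_fourierChar
      continuous_inner h1
  have h4 : ∀ ξ : ℝ, 𝓕 (fun u : ℝ => f u * exp (-((x : ℂ) * u))) ξ =
      La f (x + (2 * Real.pi * ξ : ℝ) * I) := by
    intro ξ
    rw [TH270.MS.PW.fourier_eq f x ξ]
    unfold La
    push_cast
    rfl
  have h5 : (fun t : ℝ => La f (x + t * I)) =
      fun t : ℝ => 𝓕 (fun u : ℝ => f u * exp (-((x : ℂ) * u))) (t / (2 * Real.pi)) := by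
    funext t
    rw [h4]
    congr 3
    have := Real.pi_pos
    field_simp
  have h6 : Continuous fun t : ℝ => La f (x + t * I) := by
    rw [h5]
    exact hcont.comp (by fun_prop)
  have h7 : ∫⁻ ξ : ℝ, ‖𝓕 (fun u : ℝ => f u * exp (-((x : ℂ) * u))) ξ‖ₑ ^ 2 =
      ∫⁻ t, ‖La f (x + t * I)‖ₑ ^ 2 ∂(Measure.map (fun ξ : ℝ => 2 * Real.pi * ξ) volume) := by
    rw [lintegral_map (h6.enorm.measurable.pow_const 2) (by fun_prop)]
    refine lintegral_congr fun ξ => ?_
    rw [h4 ξ]
  rw [h7, Real.map_volume_mul_left (by positivity), lintegral_smul_measure,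
    abs_of_pos (by positivity), one_div]
  rfl

theorem HL.memLp_exp (H : HL h) {x : ℝ} (hx : 0 ≤ x) :
    MemLp (fun u : ℝ => h u * exp (-((x : ℂ) * u))) 2 := by
  refine MemLp.mono H.sq (H.sq.aestronglyMeasurable.mul
    (Continuous.aestronglyMeasurable (by fun_prop))) (Eventually.of_forall fun u => ?_)
  rw [norm_mul, norm_exp_neg', Complex.ofReal_re]
  rcases le_or_gt u 0 with hu | hu
  · rw [H.zero u hu]
    simp
  · have h1 : Real.exp (-(x * u)) ≤ 1 := by
      rw [Real.exp_le_one_iff]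
      have := mul_nonneg hx hu.le
      linarith
    nlinarith [norm_nonneg (h u)]

/-- the uniform bound on the vertical lines -/
theorem HL.line (H : HL h) {x : ℝ} (hx : 0 < x) :
    ∫⁻ t : ℝ, ‖La h (x + t * I)‖ₑ ^ 2 ≤ ENNReal.ofReal (2 * Real.pi) * ∫⁻ u : ℝ, ‖h u‖ₑ ^ 2 := by
  have h1 := planch (f := h) (x := x) (H.int (by simpa using hx)) (H.memLp_exp hx.le)
  have h2 : ∫⁻ u : ℝ, ‖h u * exp (-((x : ℂ) * u))‖ₑ ^ 2 ≤ ∫⁻ u : ℝ, ‖h u‖ₑ ^ 2 := by
    refine lintegral_mono fun u => ?_
    have h3 : ‖h u * exp (-((x : ℂ) * u))‖ₑ ≤ ‖h u‖ₑ := by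
      rw [← ofReal_norm, ← ofReal_norm]
      apply ENNReal.ofReal_le_ofReal
      rw [norm_mul, norm_exp_neg', Complex.ofReal_re]
      rcases le_or_gt u 0 with hu | hu
      · rw [H.zero u hu]
        simp
      · have h1 : Real.exp (-(x * u)) ≤ 1 := by
          rw [Real.exp_le_one_iff]
          have := mul_nonneg hx.le hu.le
          linarith
        nlinarith [norm_nonneg (h u)]
    exact pow_le_pow_left' h3 2
  rw [h1] at h2
  have h4 : ENNReal.ofReal (2 * Real.pi) * ENNReal.ofReal (1 / (2 * Real.pi)) = 1 := by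
    rw [← ENNReal.ofReal_mul (by positivity), mul_one_div_cancel (by positivity),
      ENNReal.ofReal_one]
  calc ∫⁻ t : ℝ, ‖La h (x + t * I)‖ₑ ^ 2 = ENNReal.ofReal (2 * Real.pi) *
        (ENNReal.ofReal (1 / (2 * Real.pi)) * ∫⁻ t : ℝ, ‖La h (x + t * I)‖ₑ ^ 2) := by
        rw [← mul_assoc, h4, one_mul]
    _ ≤ _ := by gcongr

/-- `s ∫ h e^{-su} → 0` along the real axis -/
theorem HL.lim (H : HL h) : Tendsto (fun x : ℝ => (x : ℂ) * La h x) (𝓝[>] 0) (𝓝 0) := by
  set K : ℝ := (eLpNorm h 2 volume).toReal with hK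
  have hb : ∀ x : ℝ, 0 < x → ‖(x : ℂ) * La h x‖ ≤ √x * K := by
    intro x hx
    have h1 : ‖La h x‖ ≤ ∫ u : ℝ, ‖h u‖ * (Ioi (0 : ℝ)).indicator (fun u => Real.exp (-(x * u))) u := by
      refine (norm_integral_le_integral_norm _).trans (le_of_eq ?_)
      refine integral_congr_ae (Eventually.of_forall fun u => ?_)
      simp only
      rw [norm_mul, norm_exp_neg', Complex.ofReal_re]
      by_cases hu : 0 < u
      · rw [indicator_of_mem (show u ∈ Ioi (0 : ℝ) from hu)]
      · rw [H.zero u (not_lt.1 hu)]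
        simp
    have hE := exp_memLp hx
    have h2 := integral_mul_norm_le_Lp_mul_Lq (μ := volume) (p := 2) (q := 2)
      Real.HolderConjugate.two_two
      (f := fun u : ℝ => ‖h u‖)
      (g := fun u : ℝ => (Ioi (0 : ℝ)).indicator (fun u => Real.exp (-(x * u))) u)
      (by simpa using H.sq.norm) (by simpa using hE)
    simp only [norm_norm] at h2
    have h3 : ∫ u : ℝ, ‖(Ioi (0 : ℝ)).indicator (fun u => Real.exp (-(x * u))) u‖ ^ (2 : ℝ) =
        1 / (2 * x) := by
      have e1 : ∀ u : ℝ, ‖(Ioi (0 : ℝ)).indicator (fun u => Real.exp (-(x * u))) u‖ ^ (2 : ℝ) =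
          (Ioi (0 : ℝ)).indicator (fun u => Real.exp (-(2 * x) * u)) u := by
        intro u
        by_cases hu : u ∈ Ioi (0 : ℝ)
        · rw [indicator_of_mem hu, indicator_of_mem hu, Real.norm_of_nonneg (Real.exp_pos _).le,
            Real.rpow_two, ← Real.exp_nat_mul]
          congr 1
          push_cast
          ring
        · rw [indicator_of_notMem hu, indicator_of_notMem hu]
          simp
      simp_rw [e1]
      rw [integral_indicator measurableSet_Ioi, integral_exp_mul_Ioi (by linarith)]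
      simp only [mul_zero, Real.exp_zero]
      field_simp
    have h4 : (∫ u : ℝ, ‖h u‖ ^ (2 : ℝ)) ^ (1 / (2 : ℝ)) = K := by
      rw [hK, MemLp.eLpNorm_eq_integral_rpow_norm (by norm_num) (by norm_num) H.sq]
      rw [ENNReal.toReal_ofReal (by positivity)]
      simp
    rw [h3, h4] at h2
    have h5 : (1 / (2 * x)) ^ (1 / (2 : ℝ)) ≤ 1 / √x := by
      rw [← Real.sqrt_eq_rpow, Real.sqrt_div zero_le_one, Real.sqrt_one]
      have := Real.sqrt_pos.2 hx
      apply one_div_le_one_div_of_le this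
      exact Real.sqrt_le_sqrt (by linarith)
    have hK0 : 0 ≤ K := ENNReal.toReal_nonneg
    have hsx := Real.sqrt_pos.2 hx
    have h7 : ∫ u : ℝ, ‖h u‖ * (Ioi (0 : ℝ)).indicator (fun u => Real.exp (-(x * u))) u ≤
        K * (1 / √x) := by
      refine le_trans (le_of_eq ?_) (h2.trans (mul_le_mul_of_nonneg_left h5 hK0))
      refine integral_congr_ae (Eventually.of_forall fun u => ?_)
      simp only
      congr 1
      rw [Real.norm_of_nonneg (indicator_nonneg (fun _ _ => (Real.exp_pos _).le) _)]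
    have h6 : ‖La h x‖ ≤ K * (1 / √x) := h1.trans h7
    rw [norm_mul, Complex.norm_real, Real.norm_of_nonneg hx.le]
    calc x * ‖La h x‖ ≤ x * (K * (1 / √x)) := mul_le_mul_of_nonneg_left h6 hx.le
      _ = √x * K := by
        have h8 : x = √x * √x := (Real.mul_self_sqrt hx.le).symm
        have h9 : x * (1 / √x) = √x := by
          nth_rewrite 1 [h8]
          field_simp
        calc x * (K * (1 / √x)) = (x * (1 / √x)) * K := by ring
          _ = _ := by rw [h9]
  refine squeeze_zero_norm' (a := fun x : ℝ => √x * K) ?_ ?_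
  · filter_upwards [self_mem_nhdsWithin] with x hx
    exact hb x hx
  · have h1 : Tendsto (fun x : ℝ => √x * K) (𝓝 0) (𝓝 (√0 * K)) := by
      have : Continuous fun x : ℝ => √x * K := by fun_prop
      exact this.tendsto 0
    rw [Real.sqrt_zero, zero_mul] at h1
    exact h1.mono_left nhdsWithin_le_nhds

end Pool.Agent.Q5.BP
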