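import Pool.Agent.H21.L.R_pool_sql_team_seeded_2aa45f1a.Q5.BP.Lap
import Pool.Agent.H21.L.R_pool_sql_team_seeded_2aa45f1a.Q5.BP.LogG

/-!
# The derivative of the Laplace transform near the vertical line
-/

set_option autoImplicit false

open MeasureTheory Filter Topology Set Complex
open scoped ENNReal
open Pool.Agent.TH270.MS (wq wq_meas)
open Pool.Agent.TH270.MS.LocL2 (exists_log const_of_exp)

namespace Pool.Agent.Q5.BP

/-- `F(s) = s^p exp (κ₀ - s La h (s))` on the right half plane, with a continuation across the line -/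
structure Bp (h : ℝ → ℂ) (F : ℂ → ℂ) (p κ : ℕ) (η C a B : ℝ) (κ₀ : ℂ) : Prop where
  H : HL h
  hη : 0 < η
  hF : ∀ s : ℂ, -η < s.re → DifferentiableAt ℂ F s
  hgrow : ∀ s : ℂ, -η < s.re → ‖F s‖ ≤ C * (1 + ‖s‖) ^ κ
  id : ∀ s : ℂ, 0 < s.re → F s = s ^ p * exp (κ₀ - s * La h s)
  zero : ∃ g : ℂ → ℂ, AnalyticAt ℂ g 0 ∧ g 0 ≠ 0 ∧ ∀ᶠ s in 𝓝 (0 : ℂ), F s = s ^ p * g s
  ha : 1 ≤ a
  hB : 0 ≤ B
  hm : ∀ T : ℝ, |Real.log ‖F (a + T * I)‖| ≤ B * (1 + Real.log (1 + |T|))

variable {h : ℝ → ℂ} {F : ℂ → ℂ} {p κ : ℕ} {η C a B : ℝ} {κ₀ : ℂ}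

theorem ne_zero_of_re {s : ℂ} (hs : 0 < s.re) : s ≠ 0 := by
  rintro rfl
  simp at hs

theorem Bp.ne (Q : Bp h F p κ η C a B κ₀) {s : ℂ} (hs : 0 < s.re) : F s ≠ 0 := by
  rw [Q.id s hs]
  exact mul_ne_zero (pow_ne_zero _ (ne_zero_of_re hs)) (exp_ne_zero _)

theorem open_re (c : ℝ) : IsOpen {s : ℂ | c < s.re} := isOpen_lt continuous_const Complex.continuous_re

theorem conv_re (c : ℝ) : Convex ℝ {s : ℂ | c < s.re} := convex_halfSpace_re_gt _

/-- a logarithm of `F` -/
noncomputable def Lo (h : ℝ → ℂ) (p : ℕ) (κ₀ : ℂ) (s : ℂ) : ℂ := p * log s + (κ₀ - s * La h s)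

theorem Bp.exp_Lo (Q : Bp h F p κ η C a B κ₀) {s : ℂ} (hs : 0 < s.re) : exp (Lo h p κ₀ s) = F s := by
  unfold Lo
  rw [Complex.exp_add, Complex.exp_nat_mul, Complex.exp_log (ne_zero_of_re hs), Q.id s hs]

theorem Bp.re_Lo (Q : Bp h F p κ η C a B κ₀) (T : ℝ) :
    |(Lo h p κ₀ (a + T * I)).re| ≤ B * (1 + Real.log (1 + |T|)) := by
  have h1 : 0 < ((a : ℂ) + T * I).re := by
    have := Q.ha
    simp
    linarith
  have h2 : (Lo h p κ₀ (a + T * I)).re = Real.log ‖F (a + T * I)‖ := by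
    rw [← Q.exp_Lo h1, Complex.norm_exp, Real.log_exp]
  rw [h2]
  exact Q.hm T

/-- the derivative of the Laplace transform -/
theorem Bp.deriv_eq (Q : Bp h F p κ η C a B κ₀) {s : ℂ} (hs : 0 < s.re) :
    deriv (La h) s = (p / s - deriv F s / F s - La h s) / s := by
  have hs0 := ne_zero_of_re hs
  have h1 : HasDerivAt (La h) (deriv (La h) s) s := (Q.H.diff hs).hasDerivAt
  have h2 : HasDerivAt (fun s => s ^ p * exp (κ₀ - s * La h s))
      ((p * s ^ (p - 1)) * exp (κ₀ - s * La h s) + s ^ p *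
        (exp (κ₀ - s * La h s) * (-(1 * La h s + s * deriv (La h) s)))) s :=
    (hasDerivAt_pow p s).mul ((((hasDerivAt_id s).mul h1).const_sub κ₀).cexp)
  have h3 : F =ᶠ[𝓝 s] fun s => s ^ p * exp (κ₀ - s * La h s) := by
    filter_upwards [(open_re 0).mem_nhds hs] with w hw
    exact Q.id w hw
  have h4 : deriv F s / F s = p / s - (La h s + s * deriv (La h) s) := by
    rw [h3.deriv_eq, h3.eq_of_nhds, h2.deriv]
    have h5 := exp_ne_zero (κ₀ - s * La h s)
    have h6 : (p : ℂ) * s ^ (p - 1) = p / s * s ^ p := by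
      rcases Nat.eq_zero_or_pos p with rfl | hp
      · simp
      · obtain ⟨n, rfl⟩ := Nat.exists_eq_add_of_lt hp
        simp only [zero_add, Nat.add_sub_cancel]
        rw [pow_succ]
        field_simp
    rw [h6]
    generalize exp (κ₀ - s * La h s) = E at h5
    have h7 : s ^ p ≠ 0 := pow_ne_zero _ hs0
    generalize s ^ p = S at h7
    field_simp
    ring
  rw [h4]
  field_simp
  ring

/-- near the origin -/
theorem Bp.near_zero (Q : Bp h F p κ η C a B κ₀) : ∃ r M : ℝ, 0 < r ∧ ∀ s : ℂ, 0 < s.re →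
    ‖s‖ < r → ‖deriv (La h) s‖ ≤ M := by
  obtain ⟨g, hg, hg0, hgF⟩ := Q.zero
  have h1 : ∀ᶠ v in 𝓝 (0 : ℂ), g v ≠ 0 := hg.continuousAt.eventually_ne hg0
  have h2 : ∀ᶠ v in 𝓝 (0 : ℂ), AnalyticAt ℂ g v := hg.eventually_analyticAt
  obtain ⟨r, hr, hball⟩ := Metric.eventually_nhds_iff_ball.1 (hgF.and (h1.and h2))
  obtain ⟨ℓ, hℓd, hℓ⟩ := exists_log hr
    (fun z hz => (hball z hz).2.2.differentiableAt.differentiableWithinAt)
    (fun z hz => (hball z hz).2.1)
  set U : Set ℂ := Metric.ball 0 r ∩ {s | 0 < s.re} with hU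
  have hUo : IsOpen U := Metric.isOpen_ball.inter (open_re 0)
  have hUc : IsPreconnected U := ((convex_ball (0 : ℂ) r).inter (conv_re 0)).isPreconnected
  have hd : ∀ z ∈ U, DifferentiableAt ℂ (fun z => κ₀ - z * La h z - ℓ z) z := fun z hz =>
    ((differentiableAt_id.mul (Q.H.diff hz.2)).const_sub _).sub (hℓd z hz.1)
  have hc : ∀ z ∈ U, exp (κ₀ - z * La h z - ℓ z) = 1 := by
    intro z hz
    have e1 := (hball z hz.1).1
    rw [Q.id z hz.2] at e1
    have e2 := mul_left_cancel₀ (pow_ne_zero p (ne_zero_of_re hz.2)) e1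
    rw [exp_sub, e2, hℓ z hz.1, div_self (hball z hz.1).2.1]
  have key : ∀ z ∈ U, z * La h z = ℓ 0 - ℓ z := by
    intro z hz
    have e1 : ∀ᶠ x : ℝ in 𝓝[>] 0, κ₀ - (x : ℂ) * La h x - ℓ x = κ₀ - z * La h z - ℓ z := by
      have e2 : ∀ᶠ x : ℝ in 𝓝[>] 0, x < r := nhdsWithin_le_nhds (gt_mem_nhds hr)
      filter_upwards [e2, self_mem_nhdsWithin] with x hx hx0
      have hx0' : 0 < x := hx0
      have hxU : (x : ℂ) ∈ U := by
        refine ⟨?_, by simpa using hx0'⟩
        rw [mem_ball_zero_iff, Complex.norm_real, Real.norm_of_nonneg hx0'.le]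
        exact hx
      exact const_of_exp hUo hUc hd hc hxU hz
    have e3 : Tendsto (fun x : ℝ => κ₀ - (x : ℂ) * La h x - ℓ x) (𝓝[>] 0) (𝓝 (κ₀ - 0 - ℓ 0)) := by
      have e4 : Tendsto (fun x : ℝ => ℓ x) (𝓝[>] 0) (𝓝 (ℓ 0)) := by
        have e5 : Tendsto (fun x : ℝ => (x : ℂ)) (𝓝[>] 0) (𝓝 ((0 : ℝ) : ℂ)) :=
          (Complex.continuous_ofReal.tendsto 0).mono_left nhdsWithin_le_nhds
        have e6 : ContinuousAt ℓ ((0 : ℝ) : ℂ) := by
          rw [Complex.ofReal_zero]
          exact (hℓd 0 (Metric.mem_ball_self hr)).continuousAt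
        have e7 := e6.tendsto.comp e5
        rwa [Complex.ofReal_zero] at e7
      exact (tendsto_const_nhds.sub Q.H.lim).sub e4
    have e8 : Tendsto (fun x : ℝ => κ₀ - (x : ℂ) * La h x - ℓ x) (𝓝[>] 0)
        (𝓝 (κ₀ - z * La h z - ℓ z)) := tendsto_const_nhds.congr' (by
      filter_upwards [e1] with x hx
      exact hx.symm)
    have e9 := tendsto_nhds_unique e3 e8
    linear_combination e9
  -- the difference quotient
  have hball0 : Metric.ball (0 : ℂ) r ∈ 𝓝 (0 : ℂ) := Metric.ball_mem_nhds 0 hr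
  have hds : DifferentiableOn ℂ (dslope ℓ 0) (Metric.ball 0 r) :=
    (differentiableOn_dslope hball0).2 fun z hz => (hℓd z hz).differentiableWithinAt
  have hdd : ContinuousOn (deriv (dslope ℓ 0)) (Metric.ball 0 r) :=
    (hds.deriv Metric.isOpen_ball).continuousOn
  have hsub : Metric.closedBall (0 : ℂ) (r / 2) ⊆ Metric.ball 0 r :=
    Metric.closedBall_subset_ball (by linarith)
  obtain ⟨M, hM⟩ := (isCompact_closedBall (0 : ℂ) (r / 2)).exists_bound_of_continuousOn
    (hdd.mono hsub)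
  refine ⟨r / 2, M, by linarith, fun s hs hsr => ?_⟩
  have hsB : s ∈ Metric.closedBall (0 : ℂ) (r / 2) := by
    rw [mem_closedBall_zero_iff]
    exact hsr.le
  have hsU : s ∈ U := ⟨hsub hsB, hs⟩
  have h3 : La h =ᶠ[𝓝 s] fun z => -(dslope ℓ 0 z) := by
    filter_upwards [hUo.mem_nhds hsU] with z hz
    have hz0 := ne_zero_of_re hz.2
    rw [dslope_of_ne _ hz0, slope_def_field, sub_zero]
    have := key z hz
    field_simp
    linear_combination this
  rw [h3.deriv_eq]
  have h4 : deriv (fun z => -(dslope ℓ 0 z)) s = -deriv (dslope ℓ 0) s := deriv.fun_neg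
  rw [h4, norm_neg]
  exact hM s hsB

theorem Bp.ana (Q : Bp h F p κ η C a B κ₀) {s : ℂ} (hs : -η < s.re) : AnalyticAt ℂ F s :=
  (DifferentiableOn.analyticOnNhd (fun z hz => (Q.hF z hz).differentiableWithinAt)
    (open_re (-η))) s hs

theorem Bp.order_ne_top (Q : Bp h F p κ η C a B κ₀) {s : ℂ} (hs : -η < s.re) :
    analyticOrderAt F s ≠ ⊤ := by
  intro htop
  rw [analyticOrderAt_eq_top] at htop
  have a1 : AnalyticOnNhd ℂ F {s : ℂ | -η < s.re} := fun z hz => Q.ana hz
  have h1 := a1.eqOn_of_preconnected_of_eventuallyEq (analyticOnNhd_const (v := (0 : ℂ)))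
    (conv_re (-η)).isPreconnected hs htop
  have hη := Q.hη
  have h2 : F 1 = 0 := h1 (show -η < (1 : ℂ).re by simp; linarith)
  exact Q.ne (s := 1) (by simp) h2

/-- the multiplicity of the zero at `it` -/
noncomputable def mu (F : ℂ → ℂ) (t : ℝ) : ℕ := (analyticOrderAt F (t * I)).toNat

/-- near a point `it`, `t ≠ 0` -/
theorem Bp.near_pt (Q : Bp h F p κ η C a B κ₀) {t : ℝ} (ht : t ≠ 0) :
    ∃ M : ℝ, ∀ᶠ s in 𝓝 ((t : ℂ) * I), 0 < s.re →
      ‖deriv (La h) s + (mu F t / (t * I)) / (s - t * I)‖ ≤ M * (1 + ‖La h s‖) := by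
  set w : ℂ := (t : ℂ) * I with hw
  have hη := Q.hη
  have hwre : w.re = 0 := by simp [hw]
  have hw1 : -η < w.re := by rw [hwre]; linarith
  have hw0 : w ≠ 0 := mul_ne_zero (by exact_mod_cast ht) I_ne_zero
  have h1 : analyticOrderAt F w = (mu F t : ℕ∞) := (ENat.natCast_toNat (Q.order_ne_top hw1)).symm
  rw [(Q.ana hw1).analyticOrderAt_eq_natCast] at h1
  obtain ⟨g, hg, hg0, hge⟩ := h1
  set m : ℕ := mu F t with hm
  -- the bounded quotient
  have hq : ContinuousAt (fun z => deriv g z / g z) w :=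
    hg.deriv.continuousAt.div hg.continuousAt hg0
  obtain ⟨M₁, hM₁⟩ : ∃ M₁ : ℝ, ∀ᶠ z in 𝓝 w, ‖deriv g z / g z‖ ≤ M₁ :=
    ⟨‖deriv g w / g w‖ + 1, hq.norm.eventually_le_const (by linarith)⟩
  have hgn : ∀ᶠ v in 𝓝 w, g v ≠ 0 := hg.continuousAt.eventually_ne hg0
  have hgd : ∀ᶠ v in 𝓝 w, DifferentiableAt ℂ g v :=
    hg.eventually_analyticAt.mono fun v hv => hv.differentiableAt
  have hwn : 0 < ‖w‖ := norm_pos_iff.2 hw0
  have hnorm : ∀ᶠ z in 𝓝 w, ‖w‖ / 2 < ‖z‖ :=
    continuous_norm.continuousAt.eventually_const_lt (by linarith)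
  set W : ℝ := 2 / ‖w‖ with hW
  have hW0 : 0 < W := by positivity
  have hM₁0 : 0 ≤ M₁ := (norm_nonneg _).trans hM₁.self_of_nhds
  refine ⟨W * (p * W + M₁ + 1) + m * W * W, ?_⟩
  filter_upwards [hge.eventually_nhds, hM₁, hgn, hgd, hnorm] with s h2 h3 h4 h5 h6 hs
  have hs0 := ne_zero_of_re hs
  have hsw : s - w ≠ 0 := by
    intro h0
    have : (s - w).re = 0 := by rw [h0]; simp
    rw [sub_re, hwre] at this
    linarith
  have h7 : F =ᶠ[𝓝 s] fun z => (z - w) ^ m * g z := by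
    filter_upwards [h2] with z hz
    rw [hz, smul_eq_mul]
  have h8 : HasDerivAt (fun z => (z - w) ^ m * g z)
      ((m * (s - w) ^ (m - 1) * 1) * g s + (s - w) ^ m * deriv g s) s :=
    (((hasDerivAt_id s).sub_const w).pow m).mul h5.hasDerivAt
  have h9 : deriv F s / F s = m / (s - w) + deriv g s / g s := by
    rw [h7.deriv_eq, h7.eq_of_nhds, h8.deriv]
    have h10 : (m : ℂ) * (s - w) ^ (m - 1) = m / (s - w) * (s - w) ^ m := by
      rcases Nat.eq_zero_or_pos m with hm0 | hp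
      · rw [hm0]
        simp
      · obtain ⟨n, hn⟩ := Nat.exists_eq_add_of_lt hp
        rw [zero_add] at hn
        rw [hn]
        simp only [Nat.add_sub_cancel]
        rw [pow_succ]
        field_simp
    rw [mul_one, h10]
    have h11 : (s - w) ^ m ≠ 0 := pow_ne_zero _ hsw
    generalize (s - w) ^ m = S at h11
    field_simp
  have h12 : deriv (La h) s + (m / w) / (s - w) =
      (p / s - deriv g s / g s - La h s) / s + m / (w * s) := by
    rw [Q.deriv_eq hs, h9]
    generalize deriv g s / g s = G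
    field_simp
    ring
  rw [h12]
  have h13 : ‖s‖⁻¹ ≤ W := by
    rw [hW, ← inv_div]
    exact inv_anti₀ (by positivity) h6.le
  have h14 : ‖w‖⁻¹ ≤ W := by
    rw [hW, ← one_div]
    exact div_le_div_of_nonneg_right (by norm_num) hwn.le
  have h15 : ‖(p : ℂ) / s‖ ≤ p * W := by
    rw [norm_div, Complex.norm_natCast, div_eq_mul_inv]
    exact mul_le_mul_of_nonneg_left h13 (Nat.cast_nonneg _)
  have hL := norm_nonneg (La h s)
  have h16 : ‖(p : ℂ) / s - deriv g s / g s - La h s‖ ≤ (p * W + M₁ + 1) * (1 + ‖La h s‖) := by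
    have e1 := norm_sub_le ((p : ℂ) / s - deriv g s / g s) (La h s)
    have e2 := norm_sub_le ((p : ℂ) / s) (deriv g s / g s)
    have e3 : 0 ≤ (p : ℝ) * W := by positivity
    nlinarith
  calc ‖((p : ℂ) / s - deriv g s / g s - La h s) / s + m / (w * s)‖
      ≤ ‖((p : ℂ) / s - deriv g s / g s - La h s) / s‖ + ‖(m : ℂ) / (w * s)‖ := norm_add_le _ _
    _ ≤ (p * W + M₁ + 1) * (1 + ‖La h s‖) * W + m * W * W := by
        refine add_le_add ?_ ?_
        · rw [norm_div, div_eq_mul_inv]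
          exact mul_le_mul h16 h13 (by positivity) (by positivity)
        · rw [norm_div, Complex.norm_natCast, div_eq_mul_inv, norm_mul, mul_inv, mul_assoc]
          exact mul_le_mul_of_nonneg_left (mul_le_mul h14 h13 (by positivity) hW0.le)
            (Nat.cast_nonneg _)
    _ ≤ _ := by
        have e4 : 0 ≤ (m : ℝ) * W * W * ‖La h s‖ := by positivity
        nlinarith

/-- the derivative of the Laplace transform without its poles at the `iτ`, `τ ∈ Z` -/
noncomputable def Dz (h : ℝ → ℂ) (F : ℂ → ℂ) (Z : Finset ℝ) (s : ℂ) : ℂ :=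
  deriv (La h) s + ∑ τ ∈ Z, (mu F τ / (τ * I)) / (s - τ * I)

/-- **The near part.** -/
theorem Bp.near (Q : Bp h F p κ η C a B κ₀) {R : ℝ} {Z : Finset ℝ}
    (hZ0 : ∀ τ ∈ Z, τ ≠ 0) (hZ : ∀ τ : ℝ, |τ| ≤ R → τ ≠ 0 → F (τ * I) = 0 → τ ∈ Z) :
    ∃ M : ℝ, 0 ≤ M ∧ ∀ s : ℂ, 0 < s.re → s.re ≤ 1 → |s.im| ≤ R →
      ‖Dz h F Z s‖ ≤ M * (1 + ‖La h s‖) := by
  have hη := Q.hη
  -- single terms away from their poles
  have term : ∀ (τ : ℝ) (w : ℂ), w ≠ τ * I → ∃ M : ℝ, 0 ≤ M ∧ ∀ᶠ s in 𝓝 w,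
      ‖(mu F τ / (τ * I)) / (s - τ * I)‖ ≤ M := by
    intro τ w hw
    have h1 : ContinuousAt (fun s : ℂ => ((mu F τ : ℂ) / (τ * I)) / (s - τ * I)) w :=
      continuousAt_const.div (by fun_prop) (sub_ne_zero.2 hw)
    exact ⟨‖((mu F τ : ℂ) / (τ * I)) / (w - τ * I)‖ + 1, by positivity,
      h1.norm.eventually_le_const (by linarith)⟩
  have terms : ∀ (Z' : Finset ℝ) (w : ℂ), (∀ τ ∈ Z', w ≠ τ * I) → ∃ M : ℝ, 0 ≤ M ∧
      ∀ᶠ s in 𝓝 w, ‖∑ τ ∈ Z', (mu F τ / (τ * I)) / (s - τ * I)‖ ≤ M := by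
    intro Z'
    induction Z' using Finset.induction_on with
    | empty => exact fun w _ => ⟨0, le_rfl, Eventually.of_forall fun s => by simp⟩
    | insert τ Z' hτ ih =>
      intro w hw
      obtain ⟨M₁, h1, h2⟩ := ih w fun τ' hτ' => hw τ' (Finset.mem_insert_of_mem hτ')
      obtain ⟨M₂, h3, h4⟩ := term τ w (hw τ (Finset.mem_insert_self _ _))
      refine ⟨M₂ + M₁, by positivity, ?_⟩
      filter_upwards [h2, h4] with s h5 h6
      rw [Finset.sum_insert hτ]
      exact (norm_add_le _ _).trans (add_le_add h6 h5)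
  set K : Set ℂ := Icc (0 : ℝ) 1 ×ℂ Icc (-R) R with hK
  have hKc : IsCompact K := isCompact_Icc.reProdIm isCompact_Icc
  have key : ∃ M : ℝ, 0 ≤ M ∧ ∀ s ∈ K, 0 < s.re → ‖Dz h F Z s‖ ≤ M * (1 + ‖La h s‖) := by
    refine hKc.induction_on (p := fun U : Set ℂ => ∃ M : ℝ, 0 ≤ M ∧ ∀ s ∈ U, 0 < s.re →
      ‖Dz h F Z s‖ ≤ M * (1 + ‖La h s‖)) ⟨0, le_rfl, by simp⟩ ?_ ?_ ?_
    · rintro U V hUV ⟨M, h0, h1⟩
      exact ⟨M, h0, fun s hs => h1 s (hUV hs)⟩
    · rintro U V ⟨M, h0, h1⟩ ⟨M', h0', h1'⟩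
      refine ⟨M + M', by positivity, fun s hs hs0 => ?_⟩
      have hL : 0 ≤ 1 + ‖La h s‖ := by positivity
      rcases hs with hs | hs
      · have := h1 s hs hs0
        nlinarith [mul_nonneg h0' hL]
      · have := h1' s hs hs0
        nlinarith [mul_nonneg h0 hL]
    · intro w hw
      have hwre : 0 ≤ w.re := hw.1.1
      have hwim : |w.im| ≤ R := abs_le.2 ⟨hw.2.1, hw.2.2⟩
      suffices hs : ∃ M : ℝ, 0 ≤ M ∧ ∀ᶠ s in 𝓝 w, 0 < s.re →
          ‖Dz h F Z s‖ ≤ M * (1 + ‖La h s‖) by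
        obtain ⟨M, h0, h1⟩ := hs
        exact ⟨{s | 0 < s.re → ‖Dz h F Z s‖ ≤ M * (1 + ‖La h s‖)}, mem_nhdsWithin_of_mem_nhds h1,
          M, h0, fun s hs => hs⟩
      -- combination of a part and the sum over the other poles
      have comb : ∀ (Z₁ Z₂ : Finset ℝ), Disjoint Z₁ Z₂ → Z₁ ∪ Z₂ = Z → (∀ τ ∈ Z₂, w ≠ τ * I) →
          (∃ M : ℝ, ∀ᶠ s in 𝓝 w, 0 < s.re → ‖deriv (La h) s +
            ∑ τ ∈ Z₁, (mu F τ / (τ * I)) / (s - τ * I)‖ ≤ M * (1 + ‖La h s‖)) →
          ∃ M : ℝ, 0 ≤ M ∧ ∀ᶠ s in 𝓝 w, 0 < s.re → ‖Dz h F Z s‖ ≤ M * (1 + ‖La h s‖) := by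
        rintro Z₁ Z₂ hd hu hne ⟨M, hM⟩
        obtain ⟨M₂, h3, h4⟩ := terms Z₂ w hne
        refine ⟨|M| + M₂, by positivity, ?_⟩
        filter_upwards [hM, h4] with s h5 h6 hs
        unfold Dz
        rw [← hu, Finset.sum_union hd, ← add_assoc]
        refine (norm_add_le _ _).trans ?_
        have hL : 0 ≤ ‖La h s‖ := norm_nonneg _
        have h7 := h5 hs
        have h8 : M * (1 + ‖La h s‖) ≤ |M| * (1 + ‖La h s‖) :=
          mul_le_mul_of_nonneg_right (le_abs_self M) (by linarith)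
        nlinarith [mul_nonneg h3 hL]
      rcases eq_or_lt_of_le hwre with h0 | h0
      · -- on the line
        have hwI : w = (w.im : ℂ) * I := by
          apply Complex.ext
          · simp [← h0]
          · simp
        by_cases hi : w.im = 0
        · have hw0 : w = 0 := by rw [hwI, hi]; simp
          refine comb ∅ Z (Finset.disjoint_empty_left _) (Finset.empty_union _) ?_ ?_
          · intro τ hτ
            rw [hw0]
            exact (mul_ne_zero (by exact_mod_cast hZ0 τ hτ) I_ne_zero).symm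
          · obtain ⟨r, M, hr, hM⟩ := Q.near_zero
            refine ⟨|M|, ?_⟩
            rw [hw0]
            filter_upwards [Metric.ball_mem_nhds (0 : ℂ) hr] with s hs hs0
            rw [Finset.sum_empty, add_zero]
            have h1 := hM s hs0 (mem_ball_zero_iff.1 hs)
            have h2 := le_abs_self M
            have h3 := mul_nonneg (abs_nonneg M) (norm_nonneg (La h s))
            linarith
        · obtain ⟨M, hM⟩ := Q.near_pt hi
          rw [← hwI] at hM
          by_cases hin : w.im ∈ Z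
          · refine comb {w.im} (Z.erase w.im) ?_ ?_ ?_ ⟨M, ?_⟩
            · rw [Finset.disjoint_singleton_left]
              exact Finset.notMem_erase _ _
            · rw [← Finset.insert_eq, Finset.insert_erase hin]
            · intro τ hτ h1
              rw [h1] at hτ
              simp at hτ
            · filter_upwards [hM] with s hs hs0
              rw [Finset.sum_singleton, ← hwI]
              exact hs hs0
          · have hmu : mu F w.im = 0 := by
              unfold mu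
              rw [← hwI]
              have h1 : F w ≠ 0 := by
                intro h1
                rw [hwI] at h1
                exact hin (hZ _ hwim hi h1)
              have h2 : analyticOrderAt F w = 0 := by
                rw [(Q.ana (by linarith)).analyticOrderAt_eq_zero]
                exact h1
              rw [h2]
              rfl
            refine comb ∅ Z (Finset.disjoint_empty_left _) (Finset.empty_union _) ?_ ⟨M, ?_⟩
            · intro τ hτ h1
              rw [h1] at hin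
              simp at hin
              exact hin hτ
            · filter_upwards [hM] with s hs hs0
              have h3 := hs hs0
              rw [hmu, Nat.cast_zero, zero_div, zero_div] at h3
              rw [Finset.sum_empty]
              exact h3
      · -- inside
        refine comb ∅ Z (Finset.disjoint_empty_left _) (Finset.empty_union _) ?_ ?_
        · intro τ _ h1
          rw [h1] at h0
          simp at h0
        · have h1 : DifferentiableOn ℂ (La h) {s : ℂ | 0 < s.re} := fun z hz =>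
            (Q.H.diff hz).differentiableWithinAt
          have h2 : ContinuousAt (deriv (La h)) w :=
            ((h1.deriv (open_re 0)).differentiableAt ((open_re 0).mem_nhds h0)).continuousAt
          refine ⟨‖deriv (La h) w‖ + 1, ?_⟩
          have h3 := h2.norm.eventually_le_const (show ‖deriv (La h) w‖ < ‖deriv (La h) w‖ + 1 by
            linarith)
          filter_upwards [h3] with s hs _
          rw [Finset.sum_empty, add_zero]
          have h4 : 0 ≤ (‖deriv (La h) w‖ + 1) * ‖La h s‖ := by positivity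
          linarith
  obtain ⟨M, h0, h1⟩ := key
  refine ⟨M, h0, fun s hs hs1 hs2 => h1 s ⟨⟨hs.le, hs1⟩, ?_⟩ hs⟩
  exact ⟨(abs_le.1 hs2).1, (abs_le.1 hs2).2⟩

end Pool.Agent.Q5.BP
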